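import Pool.Agent.H14R3.KK.Defs

/-! Task SIGNX of project KK (MP_d47e08_pr): the gauge symmetry of the Kikuchi matrix. -/

set_option autoImplicit false
open MeasureTheory ProbabilityTheory Filter Topology

namespace KK14

namespace SIGNXx

/-- the sign of a set -/
noncomputable def sg {n : ℕ} (x : Fin n → Bool) (I : Finset (Fin n)) : ℝ :=
  ∏ i ∈ I, (if x i then (1 : ℝ) else -1)

theorem sg_sq {n : ℕ} (x : Fin n → Bool) (I : Finset (Fin n)) : sg x I * sg x I = 1 := by
  unfold sg
  rw [← Finset.prod_mul_distrib]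
  apply Finset.prod_eq_one
  intro i _
  split_ifs <;> norm_num

theorem sg_symmDiff {n : ℕ} (x : Fin n → Bool) (I J : Finset (Fin n)) :
    sg x I * sg x J = sg x (symmDiff I J) := by
  have h1 : sg x I = sg x (I \ J) * sg x (I ∩ J) := by
    unfold sg
    rw [← Finset.prod_union (Finset.disjoint_sdiff_inter I J), Finset.sdiff_union_inter]
  have h2 : sg x J = sg x (J \ I) * sg x (I ∩ J) := by
    unfold sg
    rw [Finset.inter_comm, ← Finset.prod_union (Finset.disjoint_sdiff_inter J I),
      Finset.sdiff_union_inter]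
  have h3 : sg x (symmDiff I J) = sg x (I \ J) * sg x (J \ I) := by
    unfold sg
    rw [symmDiff_def, Finset.sup_eq_union, Finset.prod_union disjoint_sdiff_sdiff]
  rw [h1, h2, h3]
  linear_combination (sg x (I \ J) * sg x (J \ I)) * sg_sq x (I ∩ J)

/-- invariance of `lmax` under conjugation with signs -/
theorem lmax_conj {ι : Type*} [Fintype ι] (t : ι → ℝ) (ht : ∀ i, t i * t i = 1)
    (A B : Matrix ι ι ℝ) (hAB : ∀ i j, A i j = t i * t j * B i j) : lmax A = lmax B := by
  unfold lmax
  have sphere : ∀ v : ι → ℝ, ∑ i, v i ^ 2 = 1 → ∑ i, (t i * v i) ^ 2 = 1 := by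
    intro v hv
    rw [← hv]
    refine Finset.sum_congr rfl fun i _ => ?_
    linear_combination (v i ^ 2) * ht i
  let e : {v : ι → ℝ // ∑ i, v i ^ 2 = 1} ≃ {v : ι → ℝ // ∑ i, v i ^ 2 = 1} :=
    { toFun := fun v => ⟨fun i => t i * v.1 i, sphere v.1 v.2⟩
      invFun := fun v => ⟨fun i => t i * v.1 i, sphere v.1 v.2⟩
      left_inv := fun v => by
        apply Subtype.ext
        funext i
        show t i * (t i * v.1 i) = v.1 i
        linear_combination (v.1 i) * ht i
      right_inv := fun v => by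
        apply Subtype.ext
        funext i
        show t i * (t i * v.1 i) = v.1 i
        linear_combination (v.1 i) * ht i }
  refine e.iSup_congr fun v => ?_
  refine Finset.sum_congr rfl fun i _ => Finset.sum_congr rfl fun j _ => ?_
  show t i * v.1 i * B i j * (t j * v.1 j) = v.1 i * A i j * v.1 j
  rw [hAB]
  ring

/-- the change of signs, as a measurable equivalence -/
noncomputable def sgE {κ : Type*} (s : κ → ℝ) (hs : ∀ k, s k * s k = 1) :
    (κ → ℝ) ≃ᵐ (κ → ℝ) where
  toFun := fun Z k => s k * Z k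
  invFun := fun Z k => s k * Z k
  left_inv := fun Z => by
    funext k
    show s k * (s k * Z k) = Z k
    linear_combination (Z k) * hs k
  right_inv := fun Z => by
    funext k
    show s k * (s k * Z k) = Z k
    linear_combination (Z k) * hs k
  measurable_toFun := by
    refine measurable_pi_lambda _ fun k => ?_
    exact Measurable.const_mul (f := fun Z : κ → ℝ => Z k) (measurable_pi_apply k) (s k)
  measurable_invFun := by
    refine measurable_pi_lambda _ fun k => ?_
    exact Measurable.const_mul (f := fun Z : κ → ℝ => Z k) (measurable_pi_apply k) (s k)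

theorem mp_gauss (c : ℝ) (hc : c * c = 1) :
    MeasurePreserving (fun z : ℝ => c * z) (gaussianReal 0 1) (gaussianReal 0 1) := by
  refine ⟨measurable_const_mul c, ?_⟩
  rw [gaussianReal_map_const_mul]
  congr 1
  · simp
  · apply NNReal.eq
    simp only [mul_one, NNReal.coe_mk, NNReal.coe_one]
    nlinarith

end SIGNXx

theorem SIGNX (n r l : ℕ) (lam : ℝ) (x : Fin n → Bool) :
    ∫ Z, lmax (kik n r l 0 (fun S => Z S + lam * xS x S)) ∂(gau n r) = Elm n r l lam := by
  have hs : ∀ S : Sub n r, xS x S * xS x S = 1 := fun S => SIGNXx.sg_sq x S.1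
  have h1 : ∀ Z : Sub n r → ℝ, lmax (kik n r l 0 (fun S => Z S + lam * xS x S)) =
      lmax (kik n r l lam (SIGNXx.sgE (fun S => xS x S) hs Z)) := by
    intro Z
    refine SIGNXx.lmax_conj (fun I : Sub n l => SIGNXx.sg x I.1) (fun I => SIGNXx.sg_sq x I.1)
      _ _ fun I J => ?_
    unfold kik
    rw [SIGNXx.sg_symmDiff]
    by_cases h : (symmDiff I.1 J.1).card = r
    · rw [dif_pos h, dif_pos h]
      show 0 + (Z ⟨symmDiff I.1 J.1, h⟩ + lam * SIGNXx.sg x (symmDiff I.1 J.1)) =
        SIGNXx.sg x (symmDiff I.1 J.1) * (lam + SIGNXx.sg x (symmDiff I.1 J.1) *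
          Z ⟨symmDiff I.1 J.1, h⟩)
      linear_combination (-(Z ⟨symmDiff I.1 J.1, h⟩)) * SIGNXx.sg_sq x (symmDiff I.1 J.1)
    · rw [dif_neg h, dif_neg h, mul_zero]
  simp_rw [h1]
  unfold Elm
  have hmp : MeasurePreserving (SIGNXx.sgE (fun S : Sub n r => xS x S) hs) (gau n r)
      (gau n r) :=
    measurePreserving_pi (fun _ : Sub n r => gaussianReal 0 1)
      (fun _ : Sub n r => gaussianReal 0 1)
      (f := fun S z => xS x S * z) (fun S => SIGNXx.mp_gauss _ (hs S))
  exact hmp.integral_comp (SIGNXx.sgE (fun S : Sub n r => xS x S) hs).measurableEmbedding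
    (fun Z => lmax (kik n r l lam Z))

end KK14
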